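import Pool.Agent.H710R3.CB.Defs

set_option autoImplicit false

open scoped BigOperators

namespace Pool.Agent.H710CB

namespace BND

lemma dl_pos (K : ℕ) : 0 ≤ dl K := by unfold dl; positivity

lemma dl_le (K : ℕ) : dl K ≤ 1 := by
  unfold dl
  exact pow_le_one₀ (by norm_num) (by norm_num)

/-- coefficients of the diagonal part -/
noncomputable def c (n : ℕ) : I → ℝ
  | (K, true, j) => al n K j
  | (K, false, j) => be n K j

/-- source of the diagonal part -/
def sg (n : ℕ) : I → I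
  | (K, true, j) => (K, true, j + n)
  | (K, false, j) => (K, false, j - n)

lemma c_le (n : ℕ) (i : I) : |c n i| ≤ 1 := by
  obtain ⟨K, b, j⟩ := i
  have h0 := dl_pos K
  have h1 := dl_le K
  cases b
  · simp only [c, be]
    split_ifs
    · rw [abs_of_nonneg h0]; exact h1
    · simp
  · simp only [c, al]
    split_ifs
    · rw [abs_of_nonneg h0]; exact h1
    · simp

lemma sg_inj (n : ℕ) (i j : I) (h : sg n i = sg n j) : i = j := by
  obtain ⟨K, b, x⟩ := i
  obtain ⟨K', b', x'⟩ := j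
  cases b <;> cases b' <;> simp only [sg, Prod.mk.injEq] at h ⊢ <;> grind

lemma coef (n k K : ℕ) (j : ℤ) :
    (if (3 : ℤ) ^ k - n + 1 ≤ j ∧ j ≤ 3 ^ k ∧ 0 ≤ j ∧ 0 ≤ 2 * (3 : ℤ) ^ k - n + 1 - j
        then (1 : ℂ) else 0) +
      (if j < 0 ∨ 2 * (3 : ℤ) ^ k - n + 1 - j < 0 then (ga n k K j : ℂ) else 0) = (ga n k K j : ℂ) := by
  by_cases hQ : j < 0 ∨ 2 * (3 : ℤ) ^ k - n + 1 - j < 0
  · rw [if_pos hQ, if_neg, zero_add]
    rintro ⟨-, -, h1, h2⟩
    rcases hQ with h | h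
    · omega
    · exact absurd h2 (not_le.2 h)
  · rw [if_neg hQ, add_zero]
    push Not at hQ
    obtain ⟨h1, h2⟩ := hQ
    unfold ga
    rw [if_neg (not_lt.2 h1), if_neg (not_lt.2 h2)]
    by_cases hP : (3 : ℤ) ^ k - n + 1 ≤ j ∧ j ≤ 3 ^ k
    · rw [if_pos hP, if_pos ⟨hP.1, hP.2, h1, h2⟩]
      norm_num
    · rw [if_neg hP, if_neg (fun h => hP ⟨h.1, h.2.1⟩)]
      norm_num

end BND

theorem pBND (hW : S_WC) (hP : S_POW) (hM : S_MAIN) (hS : S_SMALL) : S_BND := by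
  intro T hT n
  obtain ⟨W, hW1, hW2⟩ := hW (BND.c n) (BND.sg n) 1 zero_le_one (BND.c_le n)
    (fun i j _ _ h => BND.sg_inj n i j h)
  obtain ⟨M, hM1, hM2⟩ := hM n
  obtain ⟨R, hR1, hR2⟩ := hS n
  have key : T ^ n = W + M + R := by
    ext f i
    obtain ⟨K, b, j⟩ := i
    have hp := hP T hT n f K j
    have hm := hM2 f K j
    have hr := hR2 f K j
    have hw := hW1 f (K, b, j)
    have hadd : ((W + M + R) f) (K, b, j) = (W f) (K, b, j) + (M f) (K, b, j) + (R f) (K, b, j) := rfl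
    rw [hadd]
    cases b
    · rw [hp.2, hw, hm.2, hr.2, add_zero, add_zero]
      rfl
    · rw [hp.1, hw, hm.1, hr.1, add_assoc, ← Finset.sum_add_distrib]
      congr 1
      apply Finset.sum_congr rfl
      intro k _
      rw [← add_mul, BND.coef]
  rw [key]
  calc ‖W + M + R‖ ≤ ‖W‖ + ‖M‖ + ‖R‖ := norm_add₃_le
    _ ≤ 3 := by linarith

end Pool.Agent.H710CB
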