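import Pool.Agent.H710R3.CB.Defs

/-!
Task C1: lower bound for `T ^ n h`.
-/

set_option autoImplicit false

open scoped BigOperators

namespace Pool.Agent.H710CB

theorem C1_dl_pos (K : ℕ) : 0 < dl K := by unfold dl; positivity

theorem C1_dl_le (K : ℕ) : dl K ≤ 1 := by
  unfold dl
  exact pow_le_one₀ (by norm_num) (by norm_num)

theorem C1_al_ge (n K : ℕ) (j : ℤ) : dl K ≤ al n K j := by
  unfold al
  split_ifs
  · exact le_refl _
  · exact C1_dl_le K

theorem C1_be_ge (n K : ℕ) (j : ℤ) : dl K ≤ be n K j := by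
  unfold be
  split_ifs
  · exact le_refl _
  · exact C1_dl_le K

theorem pC1 (hP : S_POW) : S_C1 := by
  intro T hT h hh
  by_cases hR : ∃ (K : ℕ) (m : ℤ), h (K, false, m) ≠ 0
  · obtain ⟨K, m, hm⟩ := hR
    refine ⟨dl K * ‖h (K, false, m)‖, mul_pos (C1_dl_pos K) (norm_pos_iff.mpr hm), fun n => ?_⟩
    have h1 := (hP T hT n h K (m + n)).2
    rw [add_sub_cancel_right] at h1
    have h2 : ‖((T ^ n) h) (K, false, m + n)‖ ≤ ‖(T ^ n) h‖ :=
      lp.norm_apply_le_norm (by norm_num) _ _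
    refine le_trans ?_ h2
    rw [h1, norm_mul, Complex.norm_real]
    have h3 := C1_be_ge n K (m + n)
    have h4 : 0 ≤ be n K (m + n) := (C1_dl_pos K).le.trans h3
    rw [Real.norm_of_nonneg h4]
    exact mul_le_mul_of_nonneg_right h3 (norm_nonneg _)
  · push Not at hR
    have hL : ∃ (K : ℕ) (m : ℤ), h (K, true, m) ≠ 0 := by
      by_contra hc
      push Not at hc
      apply hh
      ext i
      obtain ⟨K, b, m⟩ := i
      cases b
      · simpa using hR K m
      · simpa using hc K m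
    obtain ⟨K, m, hm⟩ := hL
    refine ⟨dl K * ‖h (K, true, m)‖, mul_pos (C1_dl_pos K) (norm_pos_iff.mpr hm), fun n => ?_⟩
    have h1 := (hP T hT n h K (m - n)).1
    rw [sub_add_cancel] at h1
    have h0 : ∑ k ∈ Finset.range K, (ga n k K (m - n) : ℂ)
        * h (K, false, 2 * 3 ^ k - n + 1 - (m - n)) = 0 := by
      refine Finset.sum_eq_zero fun k _ => ?_
      rw [hR, mul_zero]
    rw [h0, add_zero] at h1
    have h2 : ‖((T ^ n) h) (K, true, m - n)‖ ≤ ‖(T ^ n) h‖ :=
      lp.norm_apply_le_norm (by norm_num) _ _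
    refine le_trans ?_ h2
    rw [h1, norm_mul, Complex.norm_real]
    have h3 := C1_al_ge n K (m - n)
    have h4 : 0 ≤ al n K (m - n) := (C1_dl_pos K).le.trans h3
    rw [Real.norm_of_nonneg h4]
    exact mul_le_mul_of_nonneg_right h3 (norm_nonneg _)

end Pool.Agent.H710CB
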