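import Pool.Agent.H710R3.CB.Defs

/-! Class C_{.1}: lower bound for the powers of the adjoint. -/

set_option autoImplicit false

open scoped BigOperators InnerProductSpace

namespace Pool.Agent.H710CB

namespace C2Aux

theorem dl_pos (K : ℕ) : 0 < dl K := by
  unfold dl
  positivity

theorem dl_le (K : ℕ) : dl K ≤ 1 := by
  unfold dl
  exact pow_le_one₀ (by norm_num) (by norm_num)

theorem al_ge (n K : ℕ) (j : ℤ) : dl K ≤ al n K j := by
  unfold al
  split_ifs
  · exact le_rfl
  · exact dl_le K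

theorem be_ge (n K : ℕ) (j : ℤ) : dl K ≤ be n K j := by
  unfold be
  split_ifs
  · exact le_rfl
  · exact dl_le K

theorem key (T : H →L[ℂ] H) (h : H) (n : ℕ) (i0 i1 : I) (d : ℝ)
    (h0 : ∀ i, i ≠ i0 → h i = 0 ∨ ((T ^ n) (lp.single 2 i1 (1 : ℂ))) i = 0)
    (h1 : d ≤ ‖((T ^ n) (lp.single 2 i1 (1 : ℂ))) i0‖) :
    ‖h i0‖ * d ≤ ‖((ContinuousLinearMap.adjoint T) ^ n) h‖ := by
  have e1 : (ContinuousLinearMap.adjoint T) ^ n = ContinuousLinearMap.adjoint (T ^ n) := by
    rw [← ContinuousLinearMap.star_eq_adjoint, ← ContinuousLinearMap.star_eq_adjoint, star_pow]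
  have e2 : ⟪((ContinuousLinearMap.adjoint T) ^ n) h, (lp.single 2 i1 (1 : ℂ) : H)⟫_ℂ =
      ⟪h, (T ^ n) (lp.single 2 i1 (1 : ℂ))⟫_ℂ := by
    rw [e1, ContinuousLinearMap.adjoint_inner_left]
  have e3 : ⟪h, (T ^ n) (lp.single 2 i1 (1 : ℂ))⟫_ℂ =
      ⟪h i0, ((T ^ n) (lp.single 2 i1 (1 : ℂ))) i0⟫_ℂ := by
    rw [lp.inner_eq_tsum]
    apply tsum_eq_single
    intro i hi
    rcases h0 i hi with h2 | h2
    · rw [h2, inner_zero_left]
    · rw [h2, inner_zero_right]
  have e4 : ‖(lp.single 2 i1 (1 : ℂ) : H)‖ = 1 := by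
    rw [lp.norm_single (by norm_num)]
    exact norm_one
  have e5 := norm_inner_le_norm (𝕜 := ℂ) (((ContinuousLinearMap.adjoint T) ^ n) h)
    (lp.single 2 i1 (1 : ℂ) : H)
  rw [e4, mul_one, e2, e3] at e5
  refine le_trans ?_ e5
  have e6 : ‖⟪h i0, ((T ^ n) (lp.single 2 i1 (1 : ℂ))) i0⟫_ℂ‖ =
      ‖h i0‖ * ‖((T ^ n) (lp.single 2 i1 (1 : ℂ))) i0‖ := by
    simp [mul_comm]
  rw [e6]
  exact mul_le_mul_of_nonneg_left h1 (norm_nonneg _)

theorem single_at (i i' : I) :
    (lp.single 2 i (1 : ℂ) : H) i' = if i' = i then 1 else 0 := by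
  by_cases hi : i' = i
  · subst hi
    rw [if_pos rfl]
    exact lp.single_apply_self (E := fun _ : I => ℂ) 2 i' (1 : ℂ)
  · rw [if_neg hi]
    exact lp.single_apply_ne (E := fun _ : I => ℂ) 2 i (1 : ℂ) hi

end C2Aux

open C2Aux

/-- class C_{.1} -/
theorem pC2 (hP : S_POW) : S_C2 := by
  intro T hT h hh
  by_cases hc : ∃ K m, h (K, true, m) ≠ 0
  · obtain ⟨K, m, hK⟩ := hc
    refine ⟨‖h (K, true, m)‖ * dl K, mul_pos (norm_pos_iff.2 hK) (dl_pos K), fun n => ?_⟩
    apply key T h n (K, true, m) (K, true, m + n)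
    · rintro ⟨K', s, j⟩ hi
      right
      cases s
      · rw [(hP T hT n _ K' j).2, single_at, if_neg (by simp), mul_zero]
      · rw [(hP T hT n _ K' j).1, single_at, if_neg, mul_zero, zero_add]
        · apply Finset.sum_eq_zero
          intro k _
          rw [single_at, if_neg (by simp), mul_zero]
        · intro he
          apply hi
          simp only [Prod.mk.injEq, true_and] at he ⊢
          exact ⟨he.1, by omega⟩
    · rw [(hP T hT n _ K m).1, single_at, if_pos rfl, mul_one]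
      rw [Finset.sum_eq_zero (fun k _ => by rw [single_at, if_neg (by simp), mul_zero]), add_zero]
      rw [Complex.norm_real, Real.norm_of_nonneg ((dl_pos K).le.trans (al_ge n K m))]
      exact al_ge n K m
  · push Not at hc
    have hc2 : ∃ K m, h (K, false, m) ≠ 0 := by
      by_contra hcon
      push Not at hcon
      apply hh
      ext ⟨K, s, j⟩
      cases s
      · exact hcon K j
      · exact hc K j
    obtain ⟨K, m, hK⟩ := hc2
    refine ⟨‖h (K, false, m)‖ * dl K, mul_pos (norm_pos_iff.2 hK) (dl_pos K), fun n => ?_⟩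
    apply key T h n (K, false, m) (K, false, m - n)
    · rintro ⟨K', s, j⟩ hi
      cases s
      · right
        rw [(hP T hT n _ K' j).2, single_at, if_neg, mul_zero]
        intro he
        apply hi
        simp only [Prod.mk.injEq, true_and] at he ⊢
        exact ⟨he.1, by omega⟩
      · left
        exact hc K' j
    · rw [(hP T hT n _ K m).2, single_at, if_pos rfl, mul_one]
      rw [Complex.norm_real, Real.norm_of_nonneg ((dl_pos K).le.trans (be_ge n K m))]
      exact be_ge n K m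

end Pool.Agent.H710CB
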