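import Pool.Agent.H710R3.CB.Defs

/-!
Task CON (helper73): quantitative form of Foguel's argument.
-/

set_option autoImplicit false

open scoped BigOperators InnerProductSpace

namespace Pool.Agent.H710CB

section con

variable {E : Type} [NormedAddCommGroup E] [InnerProductSpace ℂ E]

/-- the defect form -/
@[instance_reducible]
noncomputable def conCore (T S : E →L[ℂ] E) (hS : ∀ x, ‖S (T x)‖ ≤ ‖S x‖) :
    PreInnerProductSpace.Core ℂ E where
  inner u z := inner ℂ (S u) (S z) - inner ℂ (S (T u)) (S (T z))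
  conj_inner_symm u z := by
    show (starRingEnd ℂ) (inner ℂ (S z) (S u) - inner ℂ (S (T z)) (S (T u))) = _
    rw [map_sub, inner_conj_symm, inner_conj_symm]
  re_inner_nonneg u := by
    show 0 ≤ RCLike.re (inner ℂ (S u) (S u) - inner ℂ (S (T u)) (S (T u)))
    rw [map_sub, inner_self_eq_norm_sq, inner_self_eq_norm_sq]
    have h := hS u
    have h1 : ‖S (T u)‖ ^ 2 ≤ ‖S u‖ ^ 2 := pow_le_pow_left₀ (norm_nonneg _) h 2
    linarith
  add_left u z y := by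
    show inner ℂ (S (u + z)) (S y) - inner ℂ (S (T (u + z))) (S (T y)) = _
    rw [map_add, map_add, map_add, inner_add_left, inner_add_left]
    ring
  smul_left u z r := by
    show inner ℂ (S (r • u)) (S z) - inner ℂ (S (T (r • u))) (S (T z)) = _
    rw [map_smul, map_smul, map_smul, inner_smul_left, inner_smul_left]
    ring

theorem con_cs (T S : E →L[ℂ] E) (hS : ∀ x, ‖S (T x)‖ ≤ ‖S x‖) (u z : E) :
    ‖inner ℂ (S u) (S z) - inner ℂ (S (T u)) (S (T z))‖ ≤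
      Real.sqrt (‖S u‖ ^ 2 - ‖S (T u)‖ ^ 2) * ‖S z‖ := by
  have h : ‖inner ℂ (S u) (S z) - inner ℂ (S (T u)) (S (T z))‖ *
      ‖inner ℂ (S z) (S u) - inner ℂ (S (T z)) (S (T u))‖ ≤
      RCLike.re (inner ℂ (S u) (S u) - inner ℂ (S (T u)) (S (T u))) *
      RCLike.re (inner ℂ (S z) (S z) - inner ℂ (S (T z)) (S (T z))) := by
    let c := conCore T S hS
    exact @InnerProductSpace.Core.inner_mul_inner_self_le ℂ E _ _ _ c u z
  have h1 : ‖inner ℂ (S z) (S u) - inner ℂ (S (T z)) (S (T u))‖ =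
      ‖inner ℂ (S u) (S z) - inner ℂ (S (T u)) (S (T z))‖ := by
    rw [← RCLike.norm_conj, map_sub, inner_conj_symm, inner_conj_symm]
  rw [h1, map_sub, map_sub, inner_self_eq_norm_sq, inner_self_eq_norm_sq, inner_self_eq_norm_sq,
    inner_self_eq_norm_sq] at h
  have h2 : 0 ≤ ‖S u‖ ^ 2 - ‖S (T u)‖ ^ 2 := by
    have h1 : ‖S (T u)‖ ^ 2 ≤ ‖S u‖ ^ 2 := pow_le_pow_left₀ (norm_nonneg _) (hS u) 2
    linarith
  have h3 : ‖inner ℂ (S u) (S z) - inner ℂ (S (T u)) (S (T z))‖ ^ 2 ≤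
      (Real.sqrt (‖S u‖ ^ 2 - ‖S (T u)‖ ^ 2) * ‖S z‖) ^ 2 := by
    rw [mul_pow, Real.sq_sqrt h2, sq]
    refine h.trans (mul_le_mul_of_nonneg_left ?_ h2)
    have : 0 ≤ ‖S (T z)‖ ^ 2 := sq_nonneg _
    linarith
  exact le_of_sq_le_sq h3 (by positivity)

theorem con_gen (T S : E →L[ℂ] E) (hS : ∀ x, ‖S (T x)‖ ≤ ‖S x‖) (hT : ∀ n : ℕ, ‖T ^ n‖ ≤ 3)
    (x y : E) (hx : ‖x‖ = 1) (hy : ‖y‖ = 1) (K : ℕ) (t : ℕ → ℕ) (ht : StrictMono t) (A B : ℝ)
    (hB : 0 ≤ B) (hA : ‖∑ k ∈ Finset.range K, ((T ^ (t k)) x - y)‖ ≤ A) (hTy : ‖T y‖ ≤ B) :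
    K * ‖S y‖ ^ 2 ≤ ‖S‖ ^ 2 * (Real.sqrt K + A + 3 * K * B) := by
  have hstep : ∀ n, (T ^ (n + 1)) x = T ((T ^ n) x) := fun n => by
    rw [pow_succ']
    rfl
  have hanti : Antitone (fun n => ‖S ((T ^ n) x)‖ ^ 2) := by
    apply antitone_nat_of_succ_le
    intro n
    show ‖S ((T ^ (n + 1)) x)‖ ^ 2 ≤ ‖S ((T ^ n) x)‖ ^ 2
    rw [hstep]
    exact pow_le_pow_left₀ (norm_nonneg _) (hS _) 2
  have hSy : ‖S y‖ ≤ ‖S‖ := by
    have := S.le_opNorm y
    rwa [hy, mul_one] at this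
  have hSx : ‖S x‖ ≤ ‖S‖ := by
    have := S.le_opNorm x
    rwa [hx, mul_one] at this
  have htel : ∀ K : ℕ, ∑ k ∈ Finset.range K,
      (‖S ((T ^ (t k)) x)‖ ^ 2 - ‖S (T ((T ^ (t k)) x))‖ ^ 2) ≤
      ‖S x‖ ^ 2 - ‖S ((T ^ (t K)) x)‖ ^ 2 := by
    intro K
    induction K with
    | zero =>
      have := hanti (Nat.zero_le (t 0))
      simp only [pow_zero] at this
      simp only [Finset.range_zero, Finset.sum_empty]
      have h1 : (1 : E →L[ℂ] E) x = x := rfl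
      rw [h1] at this
      linarith
    | succ K ih =>
      rw [Finset.sum_range_succ]
      have h1 := hanti (Nat.succ_le_of_lt (ht (Nat.lt_succ_self K)))
      simp only [Nat.succ_eq_add_one] at h1
      rw [hstep] at h1
      linarith
  have hD : ‖∑ k ∈ Finset.range K, (inner ℂ (S ((T ^ (t k)) x)) (S y) -
      inner ℂ (S (T ((T ^ (t k)) x))) (S (T y)))‖ ≤ Real.sqrt K * ‖S‖ ^ 2 := by
    have h1 : ‖∑ k ∈ Finset.range K, (inner ℂ (S ((T ^ (t k)) x)) (S y) -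
        inner ℂ (S (T ((T ^ (t k)) x))) (S (T y)))‖ ≤ ∑ k ∈ Finset.range K,
        Real.sqrt (‖S ((T ^ (t k)) x)‖ ^ 2 - ‖S (T ((T ^ (t k)) x))‖ ^ 2) * ‖S y‖ :=
      norm_sum_le_of_le _ (fun k _ => con_cs T S hS _ _)
    refine h1.trans ?_
    rw [← Finset.sum_mul]
    have h2 : ∑ k ∈ Finset.range K,
        Real.sqrt (‖S ((T ^ (t k)) x)‖ ^ 2 - ‖S (T ((T ^ (t k)) x))‖ ^ 2) ≤
        Real.sqrt K * ‖S‖ := by
      have hnn : ∀ k, 0 ≤ ‖S ((T ^ (t k)) x)‖ ^ 2 - ‖S (T ((T ^ (t k)) x))‖ ^ 2 := fun k => by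
        have := pow_le_pow_left₀ (norm_nonneg _) (hS ((T ^ (t k)) x)) 2
        linarith
      have h3 : (∑ k ∈ Finset.range K,
          Real.sqrt (‖S ((T ^ (t k)) x)‖ ^ 2 - ‖S (T ((T ^ (t k)) x))‖ ^ 2)) ^ 2 ≤
          (Real.sqrt K * ‖S‖) ^ 2 := by
        calc (∑ k ∈ Finset.range K,
            Real.sqrt (‖S ((T ^ (t k)) x)‖ ^ 2 - ‖S (T ((T ^ (t k)) x))‖ ^ 2)) ^ 2 ≤
              (Finset.range K).card * ∑ k ∈ Finset.range K,
            (Real.sqrt (‖S ((T ^ (t k)) x)‖ ^ 2 - ‖S (T ((T ^ (t k)) x))‖ ^ 2)) ^ 2 :=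
              sq_sum_le_card_mul_sum_sq
          _ = K * ∑ k ∈ Finset.range K,
            (‖S ((T ^ (t k)) x)‖ ^ 2 - ‖S (T ((T ^ (t k)) x))‖ ^ 2) := by
              rw [Finset.card_range]
              congr 1
              exact Finset.sum_congr rfl (fun k _ => Real.sq_sqrt (hnn k))
          _ ≤ K * ‖S‖ ^ 2 := by
              apply mul_le_mul_of_nonneg_left _ (Nat.cast_nonneg _)
              have h4 := htel K
              have h5 : 0 ≤ ‖S ((T ^ (t K)) x)‖ ^ 2 := sq_nonneg _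
              have h6 := pow_le_pow_left₀ (norm_nonneg _) hSx 2
              linarith
          _ = (Real.sqrt K * ‖S‖) ^ 2 := by
              rw [mul_pow, Real.sq_sqrt (Nat.cast_nonneg _)]
      exact le_of_sq_le_sq h3 (by positivity)
    calc (∑ k ∈ Finset.range K,
        Real.sqrt (‖S ((T ^ (t k)) x)‖ ^ 2 - ‖S (T ((T ^ (t k)) x))‖ ^ 2)) * ‖S y‖ ≤
          (Real.sqrt K * ‖S‖) * ‖S‖ := mul_le_mul h2 hSy (norm_nonneg _) (by positivity)
      _ = Real.sqrt K * ‖S‖ ^ 2 := by ring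
  have hsum : ((K * ‖S y‖ ^ 2 : ℝ) : ℂ) =
      (∑ k ∈ Finset.range K, (inner ℂ (S ((T ^ (t k)) x)) (S y) -
        inner ℂ (S (T ((T ^ (t k)) x))) (S (T y)))) -
      inner ℂ (S (∑ k ∈ Finset.range K, ((T ^ (t k)) x - y))) (S y) +
      ∑ k ∈ Finset.range K, inner ℂ (S (T ((T ^ (t k)) x))) (S (T y)) := by
    rw [map_sum, sum_inner, Finset.sum_sub_distrib]
    have h1 : ∑ k ∈ Finset.range K, inner ℂ (S ((T ^ (t k)) x - y)) (S y) =
        ∑ k ∈ Finset.range K, inner ℂ (S ((T ^ (t k)) x)) (S y) - K * (‖S y‖ : ℂ) ^ 2 := by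
      rw [eq_sub_iff_add_eq]
      have h2 : (K : ℂ) * (‖S y‖ : ℂ) ^ 2 = ∑ k ∈ Finset.range K, inner ℂ (S y) (S y) := by
        rw [Finset.sum_const, Finset.card_range, nsmul_eq_mul, inner_self_eq_norm_sq_to_K]
        rfl
      rw [h2, ← Finset.sum_add_distrib]
      apply Finset.sum_congr rfl
      intro k _
      rw [map_sub, inner_sub_left]
      ring
    rw [h1]
    push_cast
    ring
  have hn : K * ‖S y‖ ^ 2 = ‖((K * ‖S y‖ ^ 2 : ℝ) : ℂ)‖ := by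
    rw [Complex.norm_real, Real.norm_eq_abs, abs_of_nonneg (by positivity)]
  rw [hn, hsum]
  have h2 : ‖inner ℂ (S (∑ k ∈ Finset.range K, ((T ^ (t k)) x - y))) (S y)‖ ≤ ‖S‖ ^ 2 * A := by
    calc ‖inner ℂ (S (∑ k ∈ Finset.range K, ((T ^ (t k)) x - y))) (S y)‖ ≤
          ‖S (∑ k ∈ Finset.range K, ((T ^ (t k)) x - y))‖ * ‖S y‖ := norm_inner_le_norm _ _
      _ ≤ (‖S‖ * A) * ‖S‖ := by
          apply mul_le_mul _ hSy (norm_nonneg _)
          · exact mul_nonneg (norm_nonneg _) ((norm_nonneg _).trans hA)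
          · exact (S.le_opNorm _).trans (mul_le_mul_of_nonneg_left hA (norm_nonneg _))
      _ = ‖S‖ ^ 2 * A := by ring
  have h3 : ‖∑ k ∈ Finset.range K, inner ℂ (S (T ((T ^ (t k)) x))) (S (T y))‖ ≤
      K * (‖S‖ ^ 2 * (3 * B)) := by
    have h4 : ∀ k ∈ Finset.range K, ‖inner ℂ (S (T ((T ^ (t k)) x))) (S (T y))‖ ≤
        ‖S‖ ^ 2 * (3 * B) := by
      intro k _
      have h5 : ‖S (T ((T ^ (t k)) x))‖ ≤ ‖S‖ * 3 := by
        rw [← hstep]
        refine (S.le_opNorm _).trans (mul_le_mul_of_nonneg_left ?_ (norm_nonneg _))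
        have := (T ^ (t k + 1)).le_opNorm x
        rw [hx, mul_one] at this
        exact this.trans (hT _)
      have h6 : ‖S (T y)‖ ≤ ‖S‖ * B :=
        (S.le_opNorm _).trans (mul_le_mul_of_nonneg_left hTy (norm_nonneg _))
      calc ‖inner ℂ (S (T ((T ^ (t k)) x))) (S (T y))‖ ≤
            ‖S (T ((T ^ (t k)) x))‖ * ‖S (T y)‖ := norm_inner_le_norm _ _
        _ ≤ (‖S‖ * 3) * (‖S‖ * B) := mul_le_mul h5 h6 (norm_nonneg _) (by positivity)
        _ = ‖S‖ ^ 2 * (3 * B) := by ring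
    refine (norm_sum_le_of_le _ h4).trans (le_of_eq ?_)
    rw [Finset.sum_const, Finset.card_range, nsmul_eq_mul]
  calc _ ≤ _ + _ + _ := (norm_add_le _ _).trans (add_le_add_left (norm_sub_le _ _) _)
    _ ≤ Real.sqrt K * ‖S‖ ^ 2 + ‖S‖ ^ 2 * A + K * (‖S‖ ^ 2 * (3 * B)) :=
        add_le_add (add_le_add hD h2) h3
    _ = ‖S‖ ^ 2 * (Real.sqrt K + A + 3 * K * B) := by ring

end con

theorem pCON : S_CON := by
  intro T S hS hT x y hx hy K t ht A B hB hA hTy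
  exact con_gen T S hS hT x y hx hy K t ht A B hB hA hTy

end Pool.Agent.H710CB

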