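import Mathlib

/-!
A power bounded operator of class C_11 that is not similar to a contraction (MP_ebd05c_an).
Index set `I = ℕ × Bool × ℤ`: block `K`, track `true` (= L) or `false` (= R), position `j`.
-/

set_option autoImplicit false

open scoped BigOperators

namespace Pool.Agent.H710CB

/-- index set -/
abbrev I : Type := ℕ × Bool × ℤ

/-- the Hilbert space -/
abbrev H : Type := lp (fun _ : I => ℂ) 2

/-- the small weight of block `K` -/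
noncomputable def dl (K : ℕ) : ℝ := (1 / 2 : ℝ) ^ K

/-- weight of the shift: value of `(W f) (K, s, j) = w (K, s, j) * f (sh (K, s, j))` -/
noncomputable def w : I → ℝ
  | (K, true, j) => if j + 1 = 0 then dl K else 1
  | (K, false, j) => if j - 1 = -1 then dl K else 1

/-- source of the shift -/
def sh : I → I
  | (K, true, j) => (K, true, j + 1)
  | (K, false, j) => (K, false, j - 1)

/-- coupling coefficients -/
noncomputable def q : I → ℝ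
  | (K, true, j) => ∑ k ∈ Finset.range K, if j = 3 ^ k then (1 : ℝ) else 0
  | (_, false, _) => 0

/-- source of the coupling -/
def fl : I → I
  | (K, _, j) => (K, false, j)

/-- `T` is the operator `(T f) i = w i * f (sh i) + q i * f (fl i)` -/
def IsT (T : H →L[ℂ] H) : Prop :=
  ∀ (f : H) (i : I), (T f) i = (w i : ℂ) * f (sh i) + (q i : ℂ) * f (fl i)

/-- coefficient on the L track after `n` steps -/
noncomputable def al (n : ℕ) (K : ℕ) (j : ℤ) : ℝ := if j < 0 ∧ 0 ≤ j + n then dl K else 1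

/-- coefficient on the R track after `n` steps -/
noncomputable def be (n : ℕ) (K : ℕ) (j : ℤ) : ℝ := if j - n < 0 ∧ 0 ≤ j then dl K else 1

/-- coefficient from the R track to the L track through the coupling at `3 ^ k` after `n` steps -/
noncomputable def ga (n k K : ℕ) (j : ℤ) : ℝ :=
  if (3 : ℤ) ^ k - n + 1 ≤ j ∧ j ≤ 3 ^ k then
    (if j < 0 then dl K else 1) * (if 2 * (3 : ℤ) ^ k - n + 1 - j < 0 then dl K else 1)
  else 0

/-- weighted composition operators -/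
def S_WC : Prop :=
  ∀ (c : I → ℝ) (σ : I → I) (C : ℝ), 0 ≤ C → (∀ i, |c i| ≤ C) →
    (∀ i j, c i ≠ 0 → c j ≠ 0 → σ i = σ j → i = j) →
    ∃ W : H →L[ℂ] H, (∀ (f : H) (i : I), (W f) i = (c i : ℂ) * f (σ i)) ∧ ‖W‖ ≤ C

/-- existence of `T` -/
def S_EX : Prop := ∃ T : H →L[ℂ] H, IsT T

/-- formula for the powers -/
def S_POW : Prop :=
  ∀ T : H →L[ℂ] H, IsT T → ∀ (n : ℕ) (f : H) (K : ℕ) (j : ℤ),
    ((T ^ n) f) (K, true, j) = (al n K j : ℂ) * f (K, true, j + n)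
      + ∑ k ∈ Finset.range K, (ga n k K j : ℂ) * f (K, false, 2 * 3 ^ k - n + 1 - j) ∧
    ((T ^ n) f) (K, false, j) = (be n K j : ℂ) * f (K, false, j - n)

/-- the main part of `T ^ n` -/
def S_MAIN : Prop :=
  ∀ n : ℕ, ∃ M : H →L[ℂ] H, ‖M‖ ≤ 1 ∧ ∀ (f : H) (K : ℕ) (j : ℤ),
    (M f) (K, true, j) = ∑ k ∈ Finset.range K,
      (if (3 : ℤ) ^ k - n + 1 ≤ j ∧ j ≤ 3 ^ k ∧ 0 ≤ j ∧ 0 ≤ 2 * (3 : ℤ) ^ k - n + 1 - j
        then (1 : ℂ) else 0) * f (K, false, 2 * 3 ^ k - n + 1 - j) ∧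
    (M f) (K, false, j) = 0

/-- the small part of `T ^ n` -/
def S_SMALL : Prop :=
  ∀ n : ℕ, ∃ R : H →L[ℂ] H, ‖R‖ ≤ 1 ∧ ∀ (f : H) (K : ℕ) (j : ℤ),
    (R f) (K, true, j) = ∑ k ∈ Finset.range K,
      (if j < 0 ∨ 2 * (3 : ℤ) ^ k - n + 1 - j < 0 then (ga n k K j : ℂ) else 0)
        * f (K, false, 2 * 3 ^ k - n + 1 - j) ∧
    (R f) (K, false, j) = 0

/-- power boundedness -/
def S_BND : Prop := ∀ T : H →L[ℂ] H, IsT T → ∀ n : ℕ, ‖T ^ n‖ ≤ 3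

/-- class C_{1.} -/
def S_C1 : Prop :=
  ∀ T : H →L[ℂ] H, IsT T → ∀ h : H, h ≠ 0 → ∃ ε : ℝ, 0 < ε ∧ ∀ n : ℕ, ε ≤ ‖(T ^ n) h‖

/-- class C_{.1} -/
def S_C2 : Prop :=
  ∀ T : H →L[ℂ] H, IsT T → ∀ h : H, h ≠ 0 →
    ∃ ε : ℝ, 0 < ε ∧ ∀ n : ℕ, ε ≤ ‖((ContinuousLinearMap.adjoint T) ^ n) h‖

/-- the orbit of `e (K, R, 0)` at the times `2 * 3 ^ k + 1` -/
def S_ORB : Prop :=
  ∀ T : H →L[ℂ] H, IsT T → ∀ K : ℕ,
    ‖∑ k ∈ Finset.range K, ((T ^ (2 * 3 ^ k + 1)) (lp.single 2 (K, false, (0 : ℤ)) (1 : ℂ))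
      - lp.single 2 (K, true, (0 : ℤ)) (1 : ℂ))‖ ≤ Real.sqrt K + 2

/-- a contraction estimate: quantitative form of Foguel's argument -/
def S_CON : Prop :=
  ∀ (T S : H →L[ℂ] H), (∀ x, ‖S (T x)‖ ≤ ‖S x‖) → (∀ n : ℕ, ‖T ^ n‖ ≤ 3) →
    ∀ (x y : H), ‖x‖ = 1 → ‖y‖ = 1 → ∀ (K : ℕ) (t : ℕ → ℕ), StrictMono t → ∀ A B : ℝ, 0 ≤ B →
      ‖∑ k ∈ Finset.range K, ((T ^ (t k)) x - y)‖ ≤ A → ‖T y‖ ≤ B →
      K * ‖S y‖ ^ 2 ≤ ‖S‖ ^ 2 * (Real.sqrt K + A + 3 * K * B)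

end Pool.Agent.H710CB
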