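import Pool.Agent.H710R3.CB.Defs

set_option autoImplicit false

namespace Pool.Agent.H710CB

theorem ex_dl (K : ℕ) : |dl K| ≤ 1 := by
  unfold dl
  rw [abs_of_nonneg (by positivity)]
  exact pow_le_one₀ (by norm_num) (by norm_num)

theorem ex_w (i : I) : |w i| ≤ 1 := by
  obtain ⟨K, s, j⟩ := i
  cases s
  · unfold w
    simp only
    split_ifs
    · exact ex_dl K
    · simp
  · unfold w
    simp only
    split_ifs
    · exact ex_dl K
    · simp

theorem ex_q (i : I) : |q i| ≤ 1 := by
  obtain ⟨K, s, j⟩ := i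
  cases s
  · unfold q
    simp
  · unfold q
    simp only
    rw [Finset.sum_boole]
    have h1 : ((Finset.range K).filter (fun k => j = (3:ℤ) ^ k)).card ≤ 1 := by
      rw [Finset.card_le_one]
      intro a ha b hb
      rw [Finset.mem_filter] at ha hb
      have h2 : (3:ℤ) ^ a = 3 ^ b := by rw [← ha.2, ← hb.2]
      exact Int.pow_right_injective (by norm_num) h2
    rw [abs_of_nonneg (by positivity)]
    exact_mod_cast h1

theorem pEX (h : S_WC) : S_EX := by
  obtain ⟨W1, h1, _⟩ := h w sh 1 zero_le_one ex_w (by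
    rintro ⟨K, s, j⟩ ⟨K', s', j'⟩ _ _ hij
    cases s <;> cases s' <;> simp only [sh, Prod.mk.injEq] at hij ⊢ <;>
      first
      | (refine ⟨hij.1, trivial, ?_⟩; omega)
      | (exact absurd hij.2.1 (by decide))
      | (exfalso; simp at hij))
  obtain ⟨W2, h2, _⟩ := h q fl 1 zero_le_one ex_q (by
    rintro ⟨K, s, j⟩ ⟨K', s', j'⟩ hi hj hij
    cases s
    · exact absurd rfl hi
    · cases s'
      · exact absurd rfl hj
      · simp only [fl, Prod.mk.injEq] at hij ⊢
        exact ⟨hij.1, trivial, hij.2.2⟩)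
  refine ⟨W1 + W2, fun f i => ?_⟩
  have : ((W1 + W2) f) i = (W1 f) i + (W2 f) i := by
    rw [ContinuousLinearMap.add_apply]
    rfl
  rw [this, h1, h2]

end Pool.Agent.H710CB
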