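import Pool.Agent.H710R3.CB.Defs

set_option autoImplicit false

open scoped BigOperators

namespace Pool.Agent.H710CB

theorem dl_pos (K : ℕ) : 0 < dl K := by unfold dl; positivity

theorem mul_dl_le (K : ℕ) : (K : ℝ) * dl K ≤ 1 := by
  unfold dl
  have h : (K : ℝ) ≤ 2 ^ K := by exact_mod_cast (Nat.lt_two_pow_self).le
  have h2 : (0 : ℝ) < 2 ^ K := by positivity
  rw [one_div, inv_pow]
  rw [← div_eq_mul_inv, div_le_one h2]
  exact h

theorem T_single (T : H →L[ℂ] H) (hT : IsT T) (K : ℕ) :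
    T (lp.single 2 (K, true, (0 : ℤ)) (1 : ℂ)) = (dl K : ℂ) • (lp.single 2 (K, true, (-1 : ℤ)) (1 : ℂ) : H) := by
  ext i
  rw [hT]
  obtain ⟨K', s, j⟩ := i
  cases s with
  | false =>
    simp only [sh, fl, q, w, lp.single_apply, Pi.single_apply, lp.coeFn_smul, Pi.smul_apply, smul_eq_mul]
    simp
  | true =>
    simp only [sh, fl, q, w, lp.single_apply, Pi.single_apply, lp.coeFn_smul, Pi.smul_apply, smul_eq_mul]
    by_cases hj : j = -1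
    · subst hj
      by_cases hK : K' = K
      · subst hK; simp
      · simp [hK]
    · have h1 : ¬ (j + 1 = 0) := by omega
      simp [h1, hj]

theorem norm_T_single (T : H →L[ℂ] H) (hT : IsT T) (K : ℕ) :
    ‖T (lp.single 2 (K, true, (0 : ℤ)) (1 : ℂ))‖ ≤ dl K := by
  rw [T_single T hT K, norm_smul]
  have h1 : ‖(lp.single 2 (K, true, (-1 : ℤ)) (1 : ℂ) : H)‖ = 1 := by
    rw [lp.norm_single (by norm_num)]; simp
  rw [h1]
  simp [abs_of_pos (dl_pos K)]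

theorem no_similarity (hORB : S_ORB) (hCON : S_CON) (hBND : S_BND)
    (T : H →L[ℂ] H) (hT : IsT T) (S : H ≃L[ℂ] H)
    (hS : ‖(S : H →L[ℂ] H).comp (T.comp (S.symm : H →L[ℂ] H))‖ ≤ 1) : False := by
  set S' : H →L[ℂ] H := (S : H →L[ℂ] H) with hS'
  set R' : H →L[ℂ] H := (S.symm : H →L[ℂ] H) with hR'
  have hc : ∀ x, ‖S' (T x)‖ ≤ ‖S' x‖ := by
    intro x
    have h1 := (S'.comp (T.comp R')).le_opNorm (S' x)
    have h2 : (S'.comp (T.comp R')) (S' x) = S' (T x) := by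
      simp [hS', hR']
    rw [h2] at h1
    calc ‖S' (T x)‖ ≤ ‖S'.comp (T.comp R')‖ * ‖S' x‖ := h1
      _ ≤ 1 * ‖S' x‖ := by gcongr
      _ = ‖S' x‖ := one_mul _
  have key : ∀ K : ℕ, (K : ℝ) ≤ (‖S'‖ * ‖R'‖) ^ 2 * (2 * Real.sqrt K + 5) := by
    intro K
    set x : H := lp.single 2 (K, false, (0 : ℤ)) (1 : ℂ) with hx
    set y : H := lp.single 2 (K, true, (0 : ℤ)) (1 : ℂ) with hy
    have nx : ‖x‖ = 1 := by rw [hx, lp.norm_single (by norm_num)]; simp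
    have ny : ‖y‖ = 1 := by rw [hy, lp.norm_single (by norm_num)]; simp
    have h1 := hCON T S' hc (hBND T hT) x y nx ny K (fun k => 2 * 3 ^ k + 1)
      (by
        intro a b hab
        have : (3 : ℕ) ^ a < 3 ^ b := Nat.pow_lt_pow_right (by norm_num) hab
        show 2 * 3 ^ a + 1 < 2 * 3 ^ b + 1
        omega)
      (Real.sqrt K + 2) (dl K) (dl_pos K).le (hORB T hT K) (norm_T_single T hT K)
    have h2 : 1 ≤ ‖R'‖ * ‖S' y‖ := by
      have h3 := R'.le_opNorm (S' y)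
      have h4 : R' (S' y) = y := by simp [hS', hR']
      rw [h4, ny] at h3
      exact h3
    have h5 : (K : ℝ) * 1 ^ 2 ≤ K * (‖R'‖ * ‖S' y‖) ^ 2 := by
      gcongr
    have h6 := mul_dl_le K
    have h7 : (K : ℝ) * ‖S' y‖ ^ 2 ≤ ‖S'‖ ^ 2 * (2 * Real.sqrt K + 5) := by
      refine h1.trans ?_
      have : Real.sqrt K + (Real.sqrt K + 2) + 3 * K * dl K ≤ 2 * Real.sqrt K + 5 := by nlinarith
      gcongr
    calc (K : ℝ) = K * 1 ^ 2 := by ring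
      _ ≤ K * (‖R'‖ * ‖S' y‖) ^ 2 := h5
      _ = ‖R'‖ ^ 2 * (K * ‖S' y‖ ^ 2) := by ring
      _ ≤ ‖R'‖ ^ 2 * (‖S'‖ ^ 2 * (2 * Real.sqrt K + 5)) := by gcongr
      _ = (‖S'‖ * ‖R'‖) ^ 2 * (2 * Real.sqrt K + 5) := by ring
  set κ : ℝ := (‖S'‖ * ‖R'‖) ^ 2 with hκ
  have hκ0 : 0 ≤ κ := by positivity
  obtain ⟨m, hm⟩ := exists_nat_gt (7 * κ + 1)
  have h8 := key (m ^ 2)
  have h9 : Real.sqrt ((m ^ 2 : ℕ) : ℝ) = m := by
    push_cast
    exact Real.sqrt_sq (Nat.cast_nonneg m)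
  rw [h9] at h8
  push_cast at h8
  have hm1 : (1 : ℝ) < m := by linarith
  nlinarith

theorem final (hEX : S_EX) (hBND : S_BND) (hC1 : S_C1) (hC2 : S_C2) (hORB : S_ORB) (hCON : S_CON) :
    ¬ (∀ (H : Type) [NormedAddCommGroup H] [InnerProductSpace ℂ H] [CompleteSpace H]
      (T : H →L[ℂ] H),
      (∃ C : ℝ, ∀ n : ℕ, ‖T ^ n‖ ≤ C) →
      (∀ h : H, h ≠ 0 →
        ¬ Filter.Tendsto (fun n : ℕ => ‖(T ^ n) h‖) Filter.atTop (nhds 0)) →
      (∀ h : H, h ≠ 0 →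
        ¬ Filter.Tendsto (fun n : ℕ => ‖((ContinuousLinearMap.adjoint T) ^ n) h‖)
          Filter.atTop (nhds 0)) →
      ∃ S : H ≃L[ℂ] H,
        ‖(S : H →L[ℂ] H).comp (T.comp (S.symm : H →L[ℂ] H))‖ ≤ 1) := by
  intro hall
  obtain ⟨T, hT⟩ := hEX
  have aux : ∀ u : ℕ → ℝ, (∃ ε : ℝ, 0 < ε ∧ ∀ n, ε ≤ u n) →
      ¬ Filter.Tendsto u Filter.atTop (nhds 0) := by
    rintro u ⟨ε, hε, hu⟩ ht
    have := ge_of_tendsto' ht hu
    linarith
  obtain ⟨S, hS⟩ := hall H T ⟨3, hBND T hT⟩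
    (fun h hh => aux _ (hC1 T hT h hh)) (fun h hh => aux _ (hC2 T hT h hh))
  exact no_similarity hORB hCON hBND T hT S hS

end Pool.Agent.H710CB
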