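import Pool.Agent.H710R3.CB.Defs

set_option autoImplicit false

open scoped BigOperators

namespace Pool.Agent.H710CB

namespace MAINaux

/-- the condition -/
def P (n : ℕ) (j : ℤ) (k : ℕ) : Prop :=
  (3 : ℤ) ^ k - n + 1 ≤ j ∧ j ≤ 3 ^ k ∧ 0 ≤ j ∧ 0 ≤ 2 * (3 : ℤ) ^ k - n + 1 - j

lemma pow3 {k k' : ℕ} (h : k < k') : 3 * (3 : ℤ) ^ k ≤ 3 ^ k' := by
  calc 3 * (3 : ℤ) ^ k = 3 ^ (k + 1) := by ring
    _ ≤ 3 ^ k' := pow_le_pow_right₀ (by norm_num) h

lemma pow_pos' (k : ℕ) : (1 : ℤ) ≤ 3 ^ k := one_le_pow₀ (by norm_num)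

lemma P_unique {n : ℕ} {j : ℤ} {k k' : ℕ} (h : P n j k) (h' : P n j k') : k = k' := by
  obtain ⟨a1, a2, a3, a4⟩ := h
  obtain ⟨b1, b2, b3, b4⟩ := h'
  rcases lt_trichotomy k k' with hk | hk | hk
  · have := pow3 hk
    have := pow_pos' k
    omega
  · exact hk
  · have := pow3 hk
    have := pow_pos' k'
    omega

lemma P_inj {n : ℕ} {j j' : ℤ} {k k' : ℕ} (h : P n j k) (h' : P n j' k')
    (e : 2 * (3 : ℤ) ^ k - n + 1 - j = 2 * (3 : ℤ) ^ k' - n + 1 - j') : j = j' := by
  obtain ⟨a1, a2, a3, a4⟩ := h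
  obtain ⟨b1, b2, b3, b4⟩ := h'
  rcases lt_trichotomy k k' with hk | hk | hk
  · have := pow3 hk
    have := pow_pos' k
    omega
  · subst hk
    omega
  · have := pow3 hk
    have := pow_pos' k'
    omega

open Classical in
noncomputable def c (n : ℕ) : I → ℝ
  | (K, true, j) => if ∃ k, k < K ∧ P n j k then 1 else 0
  | (_, false, _) => 0

open Classical in
noncomputable def σ (n : ℕ) : I → I
  | (K, true, j) => if h : ∃ k, k < K ∧ P n j k then (K, false, 2 * 3 ^ (h.choose) - n + 1 - j)
      else (K, false, 0)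
  | (K, false, j) => (K, false, j)

end MAINaux

open MAINaux in
theorem pMAIN (h : S_WC) : S_MAIN := by
  classical
  intro n
  obtain ⟨W, hW, hWn⟩ := h (c n) (σ n) 1 zero_le_one
    (by
      rintro ⟨K, s, j⟩
      cases s with
      | false => simp [c]
      | true =>
        simp only [c]
        split_ifs <;> simp)
    (by
      rintro ⟨K, s, j⟩ ⟨K', s', j'⟩ h1 h2 h3
      cases s with
      | false => exact absurd rfl h1
      | true =>
        cases s' with
        | false => exact absurd rfl h2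
        | true =>
          simp only [c] at h1 h2
          have e1 : ∃ k, k < K ∧ P n j k := by
            by_contra hc; rw [if_neg hc] at h1; exact h1 rfl
          have e2 : ∃ k, k < K' ∧ P n j' k := by
            by_contra hc; rw [if_neg hc] at h2; exact h2 rfl
          simp only [σ] at h3
          rw [dif_pos e1, dif_pos e2] at h3
          have h4 : K = K' := congrArg Prod.fst h3
          have h5 : 2 * (3 : ℤ) ^ (e1.choose) - n + 1 - j = 2 * 3 ^ (e2.choose) - n + 1 - j' :=
            congrArg (fun x : I => x.2.2) h3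
          have h6 := P_inj e1.choose_spec.2 e2.choose_spec.2 h5
          rw [h4, h6])
  refine ⟨W, hWn, fun f K j => ⟨?_, ?_⟩⟩
  · rw [hW]
    by_cases e : ∃ k, k < K ∧ P n j k
    · have hk := e.choose_spec
      set k0 := e.choose with hk0
      have h1 : c n (K, true, j) = 1 := by simp only [c]; rw [if_pos e]
      have h2 : σ n (K, true, j) = (K, false, 2 * 3 ^ k0 - n + 1 - j) := by
        simp only [σ]; rw [dif_pos e]
      rw [h1, h2, Finset.sum_eq_single k0]
      · have hk2 : (3 : ℤ) ^ k0 - n + 1 ≤ j ∧ j ≤ 3 ^ k0 ∧ 0 ≤ j ∧ 0 ≤ 2 * (3 : ℤ) ^ k0 - n + 1 - j :=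
          hk.2
        rw [if_pos hk2]
        norm_num
      · intro k _ hne
        rw [if_neg, zero_mul]
        intro hP
        exact hne (P_unique (n := n) (j := j) hP hk.2)
      · intro hn
        exact absurd (Finset.mem_range.2 hk.1) hn
    · have h1 : c n (K, true, j) = 0 := by simp only [c]; rw [if_neg e]
      rw [h1, Finset.sum_eq_zero]
      · simp
      · intro k hk
        rw [if_neg, zero_mul]
        intro hP
        exact e ⟨k, Finset.mem_range.1 hk, hP⟩
  · rw [hW]
    simp [c]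

end Pool.Agent.H710CB
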