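import Pool.Agent.H710R3.CB.Defs

/-!
ORB: the orbit of `e (K, R, 0)`.
-/

set_option autoImplicit false

open scoped BigOperators

namespace Pool.Agent.H710CB

theorem ORB_eval (i0 i : I) : (lp.single 2 i0 (1 : ℂ) : H) i = if i = i0 then 1 else 0 := by
  rw [lp.single_apply, Pi.single_apply]

noncomputable def ORB_V (k K : ℕ) : H :=
  lp.single 2 (K, false, (2 * 3 ^ k + 1 : ℤ)) (1 : ℂ) +
    ∑ k' ∈ Finset.range K, ((if k' < k then dl K else 0 : ℝ) : ℂ) •
      (lp.single 2 (K, true, (2 * 3 ^ k' - 2 * 3 ^ k : ℤ)) (1 : ℂ) : H)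

theorem ORB_ga (k k' K : ℕ) (j : ℤ) :
    ga (2 * 3 ^ k + 1) k' K j *
      (if 2 * (3 : ℤ) ^ k' - ((2 * 3 ^ k + 1 : ℕ) : ℤ) + 1 - j = 0 then 1 else 0) =
      (if k' = k then (if j = 0 then 1 else 0) else 0) +
      (if k' < k then dl K else 0) * (if j = 2 * (3 : ℤ) ^ k' - 2 * 3 ^ k then 1 else 0) := by
  have hb : (1 : ℤ) ≤ (3 : ℤ) ^ k := one_le_pow₀ (by norm_num)
  have ha : (1 : ℤ) ≤ (3 : ℤ) ^ k' := one_le_pow₀ (by norm_num)
  have h1 : k' < k → 3 * (3 : ℤ) ^ k' ≤ 3 ^ k := by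
    intro h
    calc 3 * (3 : ℤ) ^ k' = 3 ^ (k' + 1) := by ring
      _ ≤ 3 ^ k := pow_le_pow_right₀ (by norm_num) h
  have h2 : k < k' → 3 * (3 : ℤ) ^ k ≤ 3 ^ k' := by
    intro h
    calc 3 * (3 : ℤ) ^ k = 3 ^ (k + 1) := by ring
      _ ≤ 3 ^ k' := pow_le_pow_right₀ (by norm_num) h
  have h3 : k' = k → (3 : ℤ) ^ k' = 3 ^ k := by
    rintro rfl
    rfl
  simp only [ga]
  push_cast
  generalize (3 : ℤ) ^ k = b at hb h1 h2 h3 ⊢
  generalize (3 : ℤ) ^ k' = a at ha h1 h2 h3 ⊢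
  rcases lt_trichotomy k' k with h | h | h
  · have h1' := h1 h
    rw [if_neg (show ¬ k' = k by omega), if_pos h]
    split_ifs <;> first | (exfalso; omega) | ring
  · have h3' := h3 h
    rw [if_pos h, if_neg (show ¬ k' < k by omega)]
    split_ifs <;> first | (exfalso; omega) | ring
  · have h2' := h2 h
    rw [if_neg (show ¬ k' = k by omega), if_neg (show ¬ k' < k by omega)]
    split_ifs <;> first | (exfalso; omega) | ring

theorem ORB_eq (hP : S_POW) (T : H →L[ℂ] H) (hT : IsT T) (k K : ℕ) (hk : k < K) :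
    (T ^ (2 * 3 ^ k + 1)) (lp.single 2 (K, false, (0 : ℤ)) (1 : ℂ))
      - lp.single 2 (K, true, (0 : ℤ)) (1 : ℂ) = ORB_V k K := by
  have hsum : ∀ (i : I) (c : ℕ → ℂ) (v : ℕ → H),
      (∑ k' ∈ Finset.range K, c k' • v k' : H) i = ∑ k' ∈ Finset.range K, c k' * v k' i := by
    intro i c v
    rw [lp.coeFn_sum, Finset.sum_apply]
    rfl
  apply lp.ext
  funext i
  obtain ⟨K', s, j⟩ := i
  obtain ⟨hp1, hp2⟩ := hP T hT (2 * 3 ^ k + 1) (lp.single 2 (K, false, (0 : ℤ)) (1 : ℂ)) K' j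
  rw [lp.coeFn_sub, Pi.sub_apply, ORB_V, lp.coeFn_add, Pi.add_apply, hsum]
  cases s with
  | false =>
    rw [hp2]
    simp only [ORB_eval, Prod.mk.injEq, reduceCtorEq, false_and, and_false, if_false, mul_zero,
      Finset.sum_const_zero, add_zero, sub_zero, true_and]
    by_cases h : K' = K ∧ j = 2 * 3 ^ k + 1
    · rw [if_pos (by refine ⟨h.1, ?_⟩; rw [h.2]; push_cast; ring), if_pos h, be, if_neg]
      · simp
      · rw [h.2]
        push_cast
        omega
    · rw [if_neg, if_neg h, mul_zero]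
      rintro ⟨h1, h2⟩
      apply h
      refine ⟨h1, ?_⟩
      push_cast at h2
      linarith
  | true =>
    rw [hp1]
    simp only [ORB_eval, Prod.mk.injEq, reduceCtorEq, false_and, and_false, if_false, mul_zero,
      zero_add, true_and]
    by_cases hK : K' = K
    · subst hK
      simp only [true_and]
      have h1 : (if j = 0 then (1 : ℂ) else 0) = ∑ k' ∈ Finset.range K',
          (if k' = k then (if j = 0 then (1 : ℂ) else 0) else 0) := by
        rw [Finset.sum_ite_eq' (Finset.range K') k, if_pos (Finset.mem_range.2 hk)]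
      rw [h1, ← Finset.sum_sub_distrib]
      apply Finset.sum_congr rfl
      intro k' _
      have h2 := congrArg (fun x : ℝ => (x : ℂ)) (ORB_ga k k' K' j)
      simp only [Complex.ofReal_mul, Complex.ofReal_add, apply_ite (fun x : ℝ => (x : ℂ)),
        Complex.ofReal_one, Complex.ofReal_zero] at h2
      rw [h2, apply_ite (fun x : ℝ => (x : ℂ)), Complex.ofReal_zero]
      ring
    · simp [hK]

theorem ORB_norm (K : ℕ) :
    ‖∑ k ∈ Finset.range K, (lp.single 2 (K, false, (2 * 3 ^ k + 1 : ℤ)) (1 : ℂ) : H)‖ =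
      Real.sqrt K := by
  have hinj : Set.InjOn (fun k : ℕ => ((K, false, (2 * 3 ^ k + 1 : ℤ)) : I))
      (Finset.range K : Set ℕ) := by
    intro a _ b _ hab
    simp only [Prod.mk.injEq, true_and] at hab
    have h1 : (3 : ℤ) ^ a = 3 ^ b := by linarith
    have h2 : (3 : ℕ) ^ a = 3 ^ b := by exact_mod_cast h1
    exact Nat.pow_right_injective (le_refl _ |>.trans (by norm_num : 2 ≤ 3)) h2
  have h1 : ∑ k ∈ Finset.range K, (lp.single 2 (K, false, (2 * 3 ^ k + 1 : ℤ)) (1 : ℂ) : H) =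
      ∑ i ∈ (Finset.range K).image (fun k : ℕ => ((K, false, (2 * 3 ^ k + 1 : ℤ)) : I)),
        (lp.single 2 i (1 : ℂ) : H) := by
    rw [Finset.sum_image hinj]
  have h2 := lp.norm_sum_single (p := 2) (E := fun _ : I => ℂ) (by norm_num) (fun _ => (1 : ℂ))
    ((Finset.range K).image (fun k : ℕ => ((K, false, (2 * 3 ^ k + 1 : ℤ)) : I)))
  rw [← h1] at h2
  simp only [norm_one, ENNReal.toReal_ofNat, Real.one_rpow, Finset.sum_const, nsmul_eq_mul,
    mul_one] at h2
  rw [Finset.card_image_of_injOn hinj, Finset.card_range] at h2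
  rw [← h2, Real.rpow_two, Real.sqrt_sq (norm_nonneg _)]

theorem ORB_sq (K : ℕ) : K * K ≤ 2 * 2 ^ K := by
  have h : ∀ n : ℕ, (n + 3) * (n + 3) ≤ 2 * 2 ^ (n + 3) := by
    intro n
    induction n with
    | zero => norm_num
    | succ n ih =>
      have : 2 * 2 ^ (n + 1 + 3) = 2 * (2 * 2 ^ (n + 3)) := by ring
      rw [this]
      nlinarith
  rcases Nat.lt_or_ge K 3 with h3 | h3
  · interval_cases K <;> norm_num
  · obtain ⟨n, rfl⟩ := Nat.exists_eq_add_of_le h3
    rw [add_comm 3 n]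
    exact h n

theorem ORB_dl (K : ℕ) : (K : ℝ) * (K * dl K) ≤ 2 := by
  have h1 : ((K * K : ℕ) : ℝ) ≤ ((2 * 2 ^ K : ℕ) : ℝ) := by exact_mod_cast ORB_sq K
  push_cast at h1
  have h2 : dl K * 2 ^ K = 1 := by
    rw [dl, ← mul_pow]
    norm_num
  have h3 : 0 < dl K := by unfold dl; positivity
  nlinarith

theorem pORB (hP : S_POW) : S_ORB := by
  intro T hT K
  have h1 : ∑ k ∈ Finset.range K,
      ((T ^ (2 * 3 ^ k + 1)) (lp.single 2 (K, false, (0 : ℤ)) (1 : ℂ))
      - lp.single 2 (K, true, (0 : ℤ)) (1 : ℂ)) = ∑ k ∈ Finset.range K, ORB_V k K :=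
    Finset.sum_congr rfl (fun k hk => ORB_eq hP T hT k K (Finset.mem_range.1 hk))
  rw [h1]
  simp only [ORB_V]
  rw [Finset.sum_add_distrib]
  refine (norm_add_le _ _).trans ?_
  rw [ORB_norm]
  have h2 : ‖∑ k ∈ Finset.range K, ∑ k' ∈ Finset.range K,
      ((if k' < k then dl K else 0 : ℝ) : ℂ) •
      (lp.single 2 (K, true, (2 * 3 ^ k' - 2 * 3 ^ k : ℤ)) (1 : ℂ) : H)‖ ≤ (K : ℝ) * (K * dl K) := by
    have h3 : ∀ k ∈ Finset.range K, ‖∑ k' ∈ Finset.range K,
      ((if k' < k then dl K else 0 : ℝ) : ℂ) •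
      (lp.single 2 (K, true, (2 * 3 ^ k' - 2 * 3 ^ k : ℤ)) (1 : ℂ) : H)‖ ≤ (K : ℝ) * dl K := by
      intro k _
      have h4 : ∀ k' ∈ Finset.range K, ‖((if k' < k then dl K else 0 : ℝ) : ℂ) •
          (lp.single 2 (K, true, (2 * 3 ^ k' - 2 * 3 ^ k : ℤ)) (1 : ℂ) : H)‖ ≤ dl K := by
        intro k' _
        have h6 : 0 ≤ dl K := by unfold dl; positivity
        rw [norm_smul, lp.norm_single (by norm_num), norm_one, mul_one, Complex.norm_real,
          Real.norm_eq_abs]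
        split_ifs
        · rw [abs_of_nonneg h6]
        · rw [abs_zero]
          exact h6
      refine (norm_sum_le _ _).trans ((Finset.sum_le_sum h4).trans ?_)
      rw [Finset.sum_const, Finset.card_range, nsmul_eq_mul]
    refine (norm_sum_le _ _).trans ((Finset.sum_le_sum h3).trans ?_)
    rw [Finset.sum_const, Finset.card_range, nsmul_eq_mul]
  linarith [ORB_dl K]

end Pool.Agent.H710CB
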