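import Pool.Agent.H710R3.CB.Defs

set_option autoImplicit false

open scoped BigOperators

namespace Pool.Agent.H710CB

theorem ga_succ (n k K : ℕ) (j : ℤ) :
    ga (n + 1) k K j = w (K, true, j) * ga n k K (j + 1)
      + (if j = 3 ^ k then (1 : ℝ) else 0) * be n K j := by
  have h3 : (1 : ℤ) ≤ 3 ^ k := one_le_pow₀ (by norm_num)
  unfold ga be w
  push_cast
  generalize (3 : ℤ) ^ k = a at h3
  by_cases h1 : j = a
  · subst h1
    have e1 : j - (↑n + 1) + 1 ≤ j ∧ j ≤ j := by omega
    have e2 : ¬ (j < 0) := by omega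
    have e3 : ¬ (j - ↑n + 1 ≤ j + 1 ∧ j + 1 ≤ j) := by omega
    rw [if_pos e1, if_neg e2, if_neg e3]
    by_cases e4 : j - ↑n < 0
    · have e5 : 2 * j - (↑n + 1) + 1 - j < 0 := by omega
      have e6 : j - ↑n < 0 ∧ 0 ≤ j := by omega
      simp [e5, e6]
    · have e5 : ¬ (2 * j - (↑n + 1) + 1 - j < 0) := by omega
      have e6 : ¬ (j - ↑n < 0 ∧ 0 ≤ j) := by omega
      rw [if_neg e5, if_neg e6]
      simp
  · rw [if_neg h1]
    by_cases h2 : a - (↑n + 1) + 1 ≤ j ∧ j ≤ a
    · have h2' : a - ↑n + 1 ≤ j + 1 ∧ j + 1 ≤ a := by omega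
      rw [if_pos h2, if_pos h2']
      have h4 : (2 * a - (↑n + 1) + 1 - j < 0) ↔ (2 * a - ↑n + 1 - (j + 1) < 0) := by
        constructor <;> intro h <;> omega
      by_cases h5 : j + 1 = 0
      · have h6 : j < 0 := by omega
        have h7 : ¬ (j + 1 < 0) := by omega
        rw [if_pos h5, if_pos h6, if_neg h7]
        simp only [h4]
        ring
      · by_cases h6 : j < 0
        · have h7 : j + 1 < 0 := by omega
          rw [if_neg h5, if_pos h6, if_pos h7]
          simp only [h4]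
          ring
        · have h7 : ¬ (j + 1 < 0) := by omega
          rw [if_neg h5, if_neg h6, if_neg h7]
          simp only [h4]
          ring
    · have h2' : ¬ (a - ↑n + 1 ≤ j + 1 ∧ j + 1 ≤ a) := by omega
      rw [if_neg h2, if_neg h2']
      ring

theorem al_succ (n K : ℕ) (j : ℤ) : al (n + 1) K j = w (K, true, j) * al n K (j + 1) := by
  unfold al w
  push_cast
  by_cases h5 : j + 1 = 0
  · have h6 : j < 0 ∧ 0 ≤ j + (↑n + 1) := by omega
    have h7 : ¬ (j + 1 < 0 ∧ 0 ≤ j + 1 + ↑n) := by omega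
    rw [if_pos h5, if_pos h6, if_neg h7]; ring
  · rw [if_neg h5]
    by_cases h6 : j < 0 ∧ 0 ≤ j + (↑n + 1)
    · have h7 : j + 1 < 0 ∧ 0 ≤ j + 1 + ↑n := by omega
      rw [if_pos h6, if_pos h7]; ring
    · have h7 : ¬ (j + 1 < 0 ∧ 0 ≤ j + 1 + ↑n) := by omega
      rw [if_neg h6, if_neg h7]; ring

theorem be_succ (n K : ℕ) (j : ℤ) : be (n + 1) K j = w (K, false, j) * be n K (j - 1) := by
  unfold be w
  push_cast
  by_cases h5 : j - 1 = -1
  · have h6 : j - (↑n + 1) < 0 ∧ 0 ≤ j := by omega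
    have h7 : ¬ (j - 1 - ↑n < 0 ∧ 0 ≤ j - 1) := by omega
    rw [if_pos h5, if_pos h6, if_neg h7]; ring
  · rw [if_neg h5]
    by_cases h6 : j - (↑n + 1) < 0 ∧ 0 ≤ j
    · have h7 : j - 1 - ↑n < 0 ∧ 0 ≤ j - 1 := by omega
      rw [if_pos h6, if_pos h7]; ring
    · have h7 : ¬ (j - 1 - ↑n < 0 ∧ 0 ≤ j - 1) := by omega
      rw [if_neg h6, if_neg h7]; ring

theorem pPOW : S_POW := by
  intro T hT n
  induction n with
  | zero =>
    intro f K j
    have hga : ∀ k, ga 0 k K j = 0 := by
      intro k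
      unfold ga
      rw [if_neg]
      push_cast
      omega
    have hal : al 0 K j = 1 := by
      unfold al; rw [if_neg]; push_cast; omega
    have hbe : be 0 K j = 1 := by
      unfold be; rw [if_neg]; push_cast; omega
    constructor
    · simp [hga, hal]
    · simp [hbe]
  | succ n ih =>
    intro f K j
    rw [pow_succ']
    constructor
    · rw [ContinuousLinearMap.mul_apply, hT]
      have e1 := (ih f K (j + 1)).1
      have e2 := (ih f K j).2
      simp only [sh, fl, q]
      rw [e1, e2, al_succ]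
      have e3 : j + 1 + (n : ℤ) = j + ((n + 1 : ℕ) : ℤ) := by push_cast; ring
      rw [e3]
      have e4 : ∀ k ∈ Finset.range K, (ga (n + 1) k K j : ℂ) * f (K, false, 2 * 3 ^ k - ((n + 1 : ℕ) : ℤ) + 1 - j)
          = (w (K, true, j) : ℂ) * ((ga n k K (j + 1) : ℂ) * f (K, false, 2 * 3 ^ k - (n : ℤ) + 1 - (j + 1)))
            + ((if j = 3 ^ k then (1 : ℝ) else 0 : ℝ) : ℂ) * ((be n K j : ℂ) * f (K, false, j - n)) := by
        intro k _
        rw [ga_succ]
        have e5 : 2 * (3 : ℤ) ^ k - ((n + 1 : ℕ) : ℤ) + 1 - j = 2 * 3 ^ k - (n : ℤ) + 1 - (j + 1) := by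
          push_cast; ring
        rw [e5]
        by_cases h : j = 3 ^ k
        · have e6 : 2 * (3 : ℤ) ^ k - (n : ℤ) + 1 - (j + 1) = j - n := by rw [h]; ring
          rw [e6]
          simp only [if_pos h]
          push_cast
          ring
        · simp only [if_neg h]
          push_cast
          ring
      rw [Finset.sum_congr rfl e4, Finset.sum_add_distrib, ← Finset.mul_sum, ← Finset.sum_mul]
      push_cast
      ring
    · rw [ContinuousLinearMap.mul_apply, hT]
      have e2 := (ih f K (j - 1)).2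
      simp only [sh, q]
      rw [e2, be_succ]
      have e3 : j - 1 - (n : ℤ) = j - ((n + 1 : ℕ) : ℤ) := by push_cast; ring
      rw [e3]
      push_cast
      ring

end Pool.Agent.H710CB
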