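import Pool.Agent.H710R3.CB.Defs

/-!
SMALL: the small part of `T ^ n`.
-/

set_option autoImplicit false

open scoped BigOperators

namespace Pool.Agent.H710CB

/-- the coefficients of the `k`-th part -/
noncomputable def SMALL_c (n k : ℕ) : I → ℝ
  | (K, true, j) => if k < K ∧ (j < 0 ∨ 2 * (3 : ℤ) ^ k - n + 1 - j < 0) then ga n k K j else 0
  | (_, false, _) => 0

/-- the sources of the `k`-th part -/
def SMALL_s (n k : ℕ) : I → I
  | (K, _, j) => (K, false, 2 * 3 ^ k - n + 1 - j)

theorem SMALL_dl_nonneg (K : ℕ) : 0 ≤ dl K := by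
  unfold dl
  positivity

theorem SMALL_dl_le (K : ℕ) : dl K ≤ 1 := by
  unfold dl
  exact pow_le_one₀ (by norm_num) (by norm_num)

theorem SMALL_bound (n k : ℕ) (i : I) : |SMALL_c n k i| ≤ (1 / 2 : ℝ) ^ (k + 1) := by
  have h0 : (0 : ℝ) ≤ (1 / 2 : ℝ) ^ (k + 1) := by positivity
  obtain ⟨K, s, j⟩ := i
  cases s with
  | false => simp [SMALL_c]
  | true =>
    simp only [SMALL_c]
    split_ifs with h
    · obtain ⟨hk, hj⟩ := h
      have h1 : dl K ≤ (1 / 2 : ℝ) ^ (k + 1) := by
        unfold dl
        exact pow_le_pow_of_le_one (by norm_num) (by norm_num) hk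
      have h2 := SMALL_dl_nonneg K
      have h3 := SMALL_dl_le K
      have h4 : |ga n k K j| ≤ dl K := by
        unfold ga
        by_cases hc : (3 : ℤ) ^ k - n + 1 ≤ j ∧ j ≤ 3 ^ k
        · rw [if_pos hc]
          by_cases ha : j < 0
          · by_cases hb : 2 * (3 : ℤ) ^ k - n + 1 - j < 0
            · rw [if_pos ha, if_pos hb, abs_of_nonneg (by positivity)]
              nlinarith
            · rw [if_pos ha, if_neg hb, mul_one, abs_of_nonneg h2]
          · have hb : 2 * (3 : ℤ) ^ k - n + 1 - j < 0 := hj.resolve_left ha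
            rw [if_neg ha, if_pos hb, one_mul, abs_of_nonneg h2]
        · rw [if_neg hc, abs_zero]
          exact h2
      exact h4.trans h1
    · rw [abs_zero]
      exact h0

theorem SMALL_inj (n k : ℕ) (i i' : I) (hi : SMALL_c n k i ≠ 0) (hi' : SMALL_c n k i' ≠ 0)
    (h : SMALL_s n k i = SMALL_s n k i') : i = i' := by
  obtain ⟨K, s, j⟩ := i
  obtain ⟨K', s', j'⟩ := i'
  cases s with
  | false => exact absurd rfl hi
  | true =>
    cases s' with
    | false => exact absurd rfl hi'
    | true =>
      simp only [SMALL_s, Prod.mk.injEq, true_and] at h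
      obtain ⟨h1, h2⟩ := h
      rw [h1]
      have : j = j' := by linarith
      rw [this]

/-- evaluation -/
noncomputable def SMALL_ev (i : I) : H →L[ℂ] ℂ :=
  LinearMap.mkContinuous
    { toFun := fun f => f i
      map_add' := fun _ _ => rfl
      map_smul' := fun _ _ => rfl } 1 (by
    intro f
    rw [one_mul]
    exact lp.norm_apply_le_norm (by norm_num) f i)

theorem SMALL_ev_apply (i : I) (f : H) : SMALL_ev i f = f i := rfl

theorem SMALL_hasSum : HasSum (fun k : ℕ => (1 / 2 : ℝ) ^ (k + 1)) 1 := by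
  have h := hasSum_geometric_two' (1 : ℝ)
  convert h using 1
  ext k
  rw [div_div, pow_succ, one_div, inv_pow, one_div]
  ring

theorem pSMALL (h : S_WC) : S_SMALL := by
  intro n
  have h1 : ∀ k : ℕ, ∃ W : H →L[ℂ] H,
      (∀ (f : H) (i : I), (W f) i = (SMALL_c n k i : ℂ) * f (SMALL_s n k i)) ∧
      ‖W‖ ≤ (1 / 2 : ℝ) ^ (k + 1) := fun k =>
    h (SMALL_c n k) (SMALL_s n k) _ (by positivity) (SMALL_bound n k) (SMALL_inj n k)
  choose W hW hWn using h1
  have hsum : Summable W := Summable.of_norm_bounded SMALL_hasSum.summable hWn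
  have hev : ∀ (f : H) (i : I), HasSum (fun k => (W k f) i) ((∑' k, W k) f i) := by
    intro f i
    have h2 := (hsum.hasSum.mapL ((SMALL_ev i).comp (ContinuousLinearMap.apply ℂ H f)))
    exact h2
  refine ⟨∑' k, W k, tsum_of_norm_bounded SMALL_hasSum hWn, fun f K j => ⟨?_, ?_⟩⟩
  · have h3 := hev f (K, true, j)
    have h4 : HasSum (fun k => (W k f) (K, true, j))
        (∑ k ∈ Finset.range K, (W k f) (K, true, j)) := by
      apply hasSum_sum_of_ne_finset_zero
      intro k hk
      rw [Finset.mem_range] at hk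
      rw [hW]
      simp only [SMALL_c]
      rw [if_neg (fun h => hk h.1)]
      simp
    rw [h3.unique h4]
    apply Finset.sum_congr rfl
    intro k hk
    rw [Finset.mem_range] at hk
    rw [hW]
    simp only [SMALL_c, SMALL_s, hk, true_and]
    rw [apply_ite (fun x : ℝ => (x : ℂ)), Complex.ofReal_zero]
  · have h3 := hev f (K, false, j)
    have h4 : HasSum (fun k => (W k f) (K, false, j)) 0 := by
      have : (fun k => (W k f) (K, false, j)) = fun _ => (0 : ℂ) := by
        funext k
        rw [hW]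
        simp [SMALL_c]
      rw [this]
      exact hasSum_zero
    exact h3.unique h4

end Pool.Agent.H710CB
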