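import Pool.Agent.H710R3.CB.Defs

/-! Task WC (helper997): weighted composition operators -/

set_option autoImplicit false

open scoped BigOperators

namespace Pool.Agent.H710CB

theorem WC_sum (c : I → ℝ) (σ : I → I) (C : ℝ) (hC : 0 ≤ C) (hc : ∀ i, |c i| ≤ C)
    (hσ : ∀ i j, c i ≠ 0 → c j ≠ 0 → σ i = σ j → i = j) (f : H) (s : Finset I) :
    ∑ i ∈ s, ‖(c i : ℂ) * f (σ i)‖ ^ (2 : ENNReal).toReal ≤ (C * ‖f‖) ^ (2 : ENNReal).toReal := by
  classical
  have h2 : (0:ℝ) < (2 : ENNReal).toReal := by norm_num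
  have h1 : ∑ i ∈ s, ‖(c i : ℂ) * f (σ i)‖ ^ (2 : ENNReal).toReal
      = ∑ i ∈ s.filter (fun i => c i ≠ 0), ‖(c i : ℂ) * f (σ i)‖ ^ (2 : ENNReal).toReal := by
    symm
    apply Finset.sum_subset (Finset.filter_subset _ _)
    intro i hi hni
    have : c i = 0 := by
      by_contra hcon
      exact hni (Finset.mem_filter.mpr ⟨hi, hcon⟩)
    rw [this]
    simp
  rw [h1]
  calc ∑ i ∈ s.filter (fun i => c i ≠ 0), ‖(c i : ℂ) * f (σ i)‖ ^ (2 : ENNReal).toReal
      ≤ ∑ i ∈ s.filter (fun i => c i ≠ 0), C ^ (2 : ENNReal).toReal *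
          ‖f (σ i)‖ ^ (2 : ENNReal).toReal := by
        refine Finset.sum_le_sum fun i _ => ?_
        rw [norm_mul, Complex.norm_real, Real.norm_eq_abs,
          Real.mul_rpow (abs_nonneg _) (norm_nonneg _)]
        exact mul_le_mul_of_nonneg_right (Real.rpow_le_rpow (abs_nonneg _) (hc i) h2.le)
          (by positivity)
    _ = C ^ (2 : ENNReal).toReal * ∑ j ∈ (s.filter (fun i => c i ≠ 0)).image σ,
          ‖f j‖ ^ (2 : ENNReal).toReal := by
        rw [Finset.mul_sum, Finset.sum_image]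
        intro i hi j hj hij
        exact hσ i j (Finset.mem_filter.mp hi).2 (Finset.mem_filter.mp hj).2 hij
    _ ≤ C ^ (2 : ENNReal).toReal * ‖f‖ ^ (2 : ENNReal).toReal :=
        mul_le_mul_of_nonneg_left (lp.sum_rpow_le_norm_rpow h2 f _) (by positivity)
    _ = _ := by rw [Real.mul_rpow hC (norm_nonneg _)]

theorem pWC : S_WC := by
  intro c σ C hC hc hσ
  have hmem : ∀ f : H, Memℓp (fun i => (c i : ℂ) * f (σ i)) 2 := fun f =>
    memℓp_gen' (WC_sum c σ C hC hc hσ f)
  let W0 : H →ₗ[ℂ] H :=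
    { toFun := fun f => ⟨fun i => (c i : ℂ) * f (σ i), hmem f⟩
      map_add' := by
        intro f g
        apply lp.ext
        funext i
        show (c i : ℂ) * (f (σ i) + g (σ i)) = (c i : ℂ) * f (σ i) + (c i : ℂ) * g (σ i)
        ring
      map_smul' := by
        intro a f
        apply lp.ext
        funext i
        show (c i : ℂ) * (a * f (σ i)) = a * ((c i : ℂ) * f (σ i))
        ring }
  have hb : ∀ f, ‖W0 f‖ ≤ C * ‖f‖ := by
    intro f
    refine lp.norm_le_of_forall_sum_le (by norm_num) (by positivity) ?_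
    exact WC_sum c σ C hC hc hσ f
  exact ⟨W0.mkContinuous C hb, fun f i => rfl, LinearMap.mkContinuous_norm_le _ hC _⟩

end Pool.Agent.H710CB
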